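import Mathlib

set_option autoImplicit false

/-!
# Project FT: a finitely dependent process on the 3-regular tree which is not a finitary factor of iid
-/

namespace Pool.Agent.W300.FT
open MeasureTheory ProbabilityTheory

noncomputable section

/-- indices: copy `c`, position `j`, number `i` -/
abbrev K : Type := (ℕ × ℕ) × ℕ × ℕ

/-- iid uniform labels -/
def PI (V : Type) : Measure (V → unitInterval) :=
  Measure.infinitePi (fun _ : V => (volume : Measure unitInterval))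

/-- the fair coin -/
def coin : Measure Bool := (1 / 2 : ENNReal) • Measure.dirac true + (1 / 2 : ENNReal) • Measure.dirac false

/-- iid fair bits -/
def PC (E : Type) : Measure (E → Bool) := Measure.infinitePi (fun _ : E => coin)

/-- non-backtracking walks of length `n` -/
def NB {V : Type} (G : SimpleGraph V) (n : ℕ) (γ : ℕ → V) : Prop :=
  (∀ j < n, G.Adj (γ j) (γ (j + 1))) ∧ ∀ j, j + 2 ≤ n → γ j ≠ γ (j + 2)

/-- TREE -/
def S_TREE : Prop := ∃ (V : Type) (G : SimpleGraph V), Countable V ∧ G.IsTree ∧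
  (∀ v : V, (G.neighborSet v).ncard = 3) ∧
  ∀ u v : V, G.Adj u v → ∃ φ : G ≃g G, φ u = v ∧ φ v = u

/-- GEO -/
def S_GEO : Prop := ∀ (V : Type) (G : SimpleGraph V), G.IsTree → ∀ (n : ℕ) (γ : ℕ → V), NB G n γ →
  ∀ i j : ℕ, i ≤ j → j ≤ n → G.dist (γ i) (γ j) = j - i

/-- DENS: density of a random set which meets all non-backtracking walks of length `n` -/
def S_DENS : Prop := ∀ (V : Type) (G : SimpleGraph V), Countable V →
  (∀ v : V, (G.neighborSet v).ncard = 3) →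
  (∀ u v : V, G.Adj u v → ∃ φ : G ≃g G, φ u = v ∧ φ v = u) →
  ∀ (Ω : Type) [MeasurableSpace Ω] (P : Measure Ω), IsProbabilityMeasure P →
  ∀ (T : (G ≃g G) → Ω → Ω) (D : V → Set Ω) (n : ℕ), (∀ φ, MeasurePreserving (T φ) P P) →
  (∀ v, MeasurableSet (D v)) → (∀ φ v, ∀ᵐ ω ∂P, T φ ω ∈ D v ↔ ω ∈ D (φ v)) →
  (∀ᵐ ω ∂P, ∀ γ : ℕ → V, NB G n γ → ∃ j ≤ n, ω ∈ D (γ j)) → ∀ v, 1 / 6 ≤ P (D v)

/-! ## mixing and local sets -/

open Classical in
/-- mixture of two labellings -/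
def mix {V : Type} (N : Set V) (y y' : V → unitInterval) : V → unitInterval :=
  fun u => if u ∈ N then y u else y' u

/-- MIX -/
def S_MIX : Prop := ∀ (V : Type) (N : Set V), Countable V →
  MeasurePreserving (fun p : (V → unitInterval) × (V → unitInterval) => mix N p.1 p.2)
    ((PI V).prod (PI V)) (PI V)

/-- balls -/
def Bal {V : Type} (G : SimpleGraph V) (m : ℕ) (v : V) : Set V := {u | G.dist v u ≤ m}

/-- the value at `v` is almost surely determined by the ball of radius `m` -/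
def Loc {V : Type} (G : SimpleGraph V) (F : (V → unitInterval) → V → K → Bool) (m : ℕ) (v : V) :
    Set (V → unitInterval) :=
  {y | ∀ᵐ p ∂((PI V).prod (PI V)), F (mix (Bal G m v) y p.1) v = F (mix (Bal G m v) y p.2) v}

open Classical in
/-- the local value -/
def Gf {V : Type} (G : SimpleGraph V) (F : (V → unitInterval) → V → K → Bool) (m : ℕ) (v : V)
    (y : V → unitInterval) : K → Bool :=
  fun k => decide (1 / 2 < PI V {y' | F (mix (Bal G m v) y y') v k = true})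

/-- LOC1: measurability -/
def S_LOC1 : Prop := ∀ (V : Type) (G : SimpleGraph V) (F : (V → unitInterval) → V → K → Bool),
  Countable V → Measurable F → ∀ (m : ℕ) (v : V), MeasurableSet (Loc G F m v) ∧
    Measurable (Gf G F m v)

/-- LOC2: locality -/
def S_LOC2 : Prop := ∀ (V : Type) (G : SimpleGraph V) (F : (V → unitInterval) → V → K → Bool)
  (m : ℕ) (v : V) (y y' : V → unitInterval), (∀ u ∈ Bal G m v, y u = y' u) →
    (y ∈ Loc G F m v ↔ y' ∈ Loc G F m v) ∧ Gf G F m v y = Gf G F m v y'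

/-- LOC3: the local value is right -/
def S_LOC3 : Prop := ∀ (V : Type) (G : SimpleGraph V) (F : (V → unitInterval) → V → K → Bool),
  Countable V → Measurable F → ∀ (m : ℕ) (v : V),
    ∀ᵐ y ∂(PI V), y ∈ Loc G F m v → F y v = Gf G F m v y

/-- LOC4: finitary maps -/
def S_LOC4 : Prop := ∀ (V : Type) (G : SimpleGraph V) (F : (V → unitInterval) → V → K → Bool),
  Countable V → Measurable F → ∀ v : V,
    (∀ᵐ y ∂(PI V), ∃ r : ℕ, ∀ y' : V → unitInterval, (∀ u : V, G.dist v u ≤ r → y' u = y u) →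
      F y' v = F y v) →
    ∀ ε : ENNReal, 0 < ε → ∃ m : ℕ, PI V (Loc G F m v)ᶜ < ε

/-- LOC5: equivariance -/
def S_LOC5 : Prop := ∀ (V : Type) (G : SimpleGraph V) (F : (V → unitInterval) → V → K → Bool),
  Countable V → Measurable F → ∀ φ : G ≃g G,
    (∀ᵐ y ∂(PI V), F (fun v => y (φ v)) = fun v => F y (φ v)) → ∀ (m : ℕ) (v : V),
    ∀ᵐ y ∂(PI V), (fun u => y (φ u)) ∈ Loc G F m v ↔ y ∈ Loc G F m (φ v)

/-- SHIFT: relabelling preserves the measure -/
def S_SHIFT : Prop := ∀ (V : Type) (φ : V ≃ V), Countable V →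
  MeasurePreserving (fun (y : V → unitInterval) v => y (φ v)) (PI V) (PI V)

/-! ## boxes -/

/-- PR1: three independent parts -/
def S_PR1 : Prop := ∀ (X Y Z : Type) [MeasurableSpace X] [MeasurableSpace Y] [MeasurableSpace Z]
  (μ : Measure X) (ν : Measure Y) (ρ : Measure Z), IsProbabilityMeasure μ →
  IsProbabilityMeasure ν → IsProbabilityMeasure ρ →
  ∀ (EL : Set (X × Y)) (ER : Set (Y × Z)) (A0 : Set X) (B0 : Set Z) (a : X → ℕ → Bool)
    (b : Z → ℕ → Bool) (u : X × Y → ℕ → Bool) (w : Y × Z → ℕ → Bool),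
  MeasurableSet EL → MeasurableSet ER → MeasurableSet A0 → MeasurableSet B0 → Measurable a →
  Measurable b → Measurable u → Measurable w → (∀ p ∈ EL, p.1 ∈ A0) → (∀ p ∈ ER, p.2 ∈ B0) →
  (∀ᵐ t ∂((μ.prod ν).prod ρ), t.1 ∈ EL → (t.1.2, t.2) ∈ ER →
    ∀ i, (a t.1.1 i && b t.2 i) = xor (u t.1 i) (w (t.1.2, t.2) i)) →
  (∀ I : Set ℕ, I.Infinite → ∀ c : ℕ → Bool, μ (A0 ∩ {x | ∀ i ∈ I, a x i = c i}) = 0) →
  (∀ I : Set ℕ, I.Infinite → ∀ c : ℕ → Bool, ρ (B0 ∩ {x | ∀ i ∈ I, b x i = c i}) = 0) →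
  ((μ.prod ν).prod ρ) {t | t.1 ∈ EL ∧ (t.1.2, t.2) ∈ ER} = 0

/-- `f` depends only on the labels of `N` -/
def DepN {V α : Type} (N : Set V) (f : (V → unitInterval) → α) : Prop :=
  ∀ y y' : V → unitInterval, (∀ u ∈ N, y u = y' u) → f y = f y'

/-- PRV: the same for labellings -/
def S_PRV : Prop := ∀ (V : Type) (NL NR Na Nb : Set V), Countable V → Na ⊆ NL → Nb ⊆ NR →
  Disjoint Na NR → Disjoint Nb NL →
  ∀ (EL ER A0 B0 : Set (V → unitInterval)) (a b u w : (V → unitInterval) → ℕ → Bool),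
  MeasurableSet EL → MeasurableSet ER → MeasurableSet A0 → MeasurableSet B0 → Measurable a →
  Measurable b → Measurable u → Measurable w → DepN NL (· ∈ EL) → DepN NR (· ∈ ER) →
  DepN Na (· ∈ A0) → DepN Nb (· ∈ B0) → DepN Na a → DepN Nb b → DepN NL u → DepN NR w →
  EL ⊆ A0 → ER ⊆ B0 →
  (∀ᵐ y ∂(PI V), y ∈ EL → y ∈ ER → ∀ i, (a y i && b y i) = xor (u y i) (w y i)) →
  (∀ I : Set ℕ, I.Infinite → ∀ c : ℕ → Bool, PI V (A0 ∩ {y | ∀ i ∈ I, a y i = c i}) = 0) →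
  (∀ I : Set ℕ, I.Infinite → ∀ c : ℕ → Bool, PI V (B0 ∩ {y | ∀ i ∈ I, b y i = c i}) = 0) →
  PI V (EL ∩ ER) = 0

/-! ## the process -/

/-- exactly one neighbour has a mark -/
def et {V : Type} (G : SimpleGraph V) (ω : V × K → Bool) (c : ℕ × ℕ) (j : ℕ) (v : V) : Prop :=
  ∃! u, G.Adj v u ∧ ω (u, (c, j, 0)) = true

/-- `u` and `v` are matched by the matching number `j` of the copy `c` -/
def mt {V : Type} (G : SimpleGraph V) (ω : V × K → Bool) (c : ℕ × ℕ) (j : ℕ) (u v : V) : Prop :=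
  G.Adj u v ∧ ω (u, (c, j, 0)) = true ∧ ω (v, (c, j, 0)) = true ∧ et G ω c j u ∧ et G ω c j v

/-- chains of length `c.1 + 2` -/
def Ch {V : Type} (G : SimpleGraph V) (ω : V × K → Bool) (c : ℕ × ℕ) (γ : ℕ → V) : Prop :=
  ∀ j < c.1 + 2, mt G ω c j (γ j) (γ (j + 1))

def bt (b : Bool) : ZMod 2 := if b then 1 else 0

/-- the bit of the position `1` -/
def fm {V : Type} (ω : V × K → Bool) (c : ℕ × ℕ) (i : ℕ) (γ : ℕ → V) : ZMod 2 :=
  bt (ω (γ 0, (c, 0, i))) * bt (ω (γ (c.1 + 2), (c, c.1 + 2, i))) +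
    ∑ j ∈ Finset.Ioo 1 (c.1 + 2), bt (ω (γ j, (c, j, i)))

open Classical in
/-- the process -/
def Psi {V : Type} (G : SimpleGraph V) (ω : V × K → Bool) (v : V) (k : K) : Bool :=
  if k.2.2 = 0 then ω (v, k) else if k.2.2 = 1 then decide (et G ω k.1 k.2.1 v) else
  if k.2.1 = 1 ∧ ∃ γ : ℕ → V, γ 1 = v ∧ Ch G ω k.1 γ then
    decide (∃ γ : ℕ → V, γ 1 = v ∧ Ch G ω k.1 γ ∧ fm ω k.1 k.2.2 γ = 1)
  else ω (v, k)

open Classical in
/-- the process seen from `C`: the constraint is used only if the interior of the chain is in `C` -/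
def PsiC {V : Type} (G : SimpleGraph V) (C : Set V) (ω : V × K → Bool) (v : V) (k : K) : Bool :=
  if k.2.2 = 0 then ω (v, k) else if k.2.2 = 1 then decide (et G ω k.1 k.2.1 v) else
  if k.2.1 = 1 ∧ ∃ γ : ℕ → V, γ 1 = v ∧ Ch G ω k.1 γ ∧ ∀ j ∈ Finset.Ioo 0 (k.1.1 + 2), γ j ∈ C then
    decide (∃ γ : ℕ → V, γ 1 = v ∧ Ch G ω k.1 γ ∧ fm ω k.1 k.2.2 γ = 1)
  else ω (v, k)

/-- its law -/
def muX {V : Type} (G : SimpleGraph V) : Measure (V → K → Bool) := (PC (V × K)).map (Psi G)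

/-- MEAS -/
def S_MEAS : Prop := ∀ (V : Type) (G : SimpleGraph V) (C : Set V), Countable V →
  Measurable (Psi G) ∧ Measurable (PsiC G C)

/-- INV -/
def S_INV : Prop := ∀ (V : Type) (G : SimpleGraph V), Countable V → ∀ φ : G ≃g G,
  (muX G).map (fun x : V → K → Bool => fun v => x (φ v)) = muX G

/-- SWAP -/
def S_SWAP : Prop := ∀ (E : Type) (Θ : Set E) (s : (E → Bool) → E → E), Countable E →
  (∀ ω e, s ω (s ω e) = e) → (∀ ω ω' : E → Bool, (∀ e ∈ Θ, ω e = ω' e) → s ω = s ω') →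
  (∀ ω, ∀ e ∈ Θ, s ω e = e) → (∀ e e', MeasurableSet {ω | s ω e = e'}) →
  MeasurePreserving (fun (ω : E → Bool) e => ω (s ω e)) (PC E) (PC E)

/-- SHEAR -/
def S_SHEAR : Prop := ∀ (E : Type) (K1 : Set E) (f : (E → Bool) → E → Bool), Countable E →
  (∀ ω, ∀ e ∉ K1, f ω e = false) → (∀ ω ω' : E → Bool, (∀ e ∉ K1, ω e = ω' e) → f ω = f ω') →
  Measurable f → MeasurePreserving (fun (ω : E → Bool) e => xor (ω e) (f ω e)) (PC E) (PC E)

/-- FD1: the two processes have the same law on `C` -/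
def S_FD1 : Prop := ∀ (V : Type) (G : SimpleGraph V) (C : Set V), Countable V →
  (PC (V × K)).map (fun ω (v : C) => Psi G ω v) = (PC (V × K)).map (fun ω (v : C) => PsiC G C ω v)

/-- FD2: independence for the modified process -/
def S_FD2 : Prop := ∀ (V : Type) (G : SimpleGraph V) (A B : Set V), Countable V → G.Connected →
  (∀ a ∈ A, ∀ b ∈ B, 6 < G.dist a b) →
  IndepFun (fun ω (v : A) => PsiC G (A ∪ B) ω v) (fun ω (v : B) => PsiC G (A ∪ B) ω v) (PC (V × K))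

/-- FD: finite dependence -/
def S_FD : Prop := ∀ (V : Type) (G : SimpleGraph V) (A B : Set V), Countable V → G.Connected →
  (∀ a ∈ A, ∀ b ∈ B, 6 < G.dist a b) →
  Indep (MeasurableSpace.comap (fun x : V → K → Bool => fun a : A => x a) inferInstance)
    (MeasurableSpace.comap (fun x : V → K → Bool => fun b : B => x b) inferInstance) (muX G)

/-- the walk `γ` is a chain, seen in `x` -/
def Mx {V : Type} (G : SimpleGraph V) (x : V → K → Bool) (c : ℕ × ℕ) (γ : ℕ → V) : Prop :=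
  ∀ j < c.1 + 2, G.Adj (γ j) (γ (j + 1)) ∧ x (γ j) (c, j, 0) = true ∧
    x (γ (j + 1)) (c, j, 0) = true ∧ x (γ j) (c, j, 1) = true ∧ x (γ (j + 1)) (c, j, 1) = true

/-- REL: the relation -/
def S_REL : Prop := ∀ (V : Type) (G : SimpleGraph V) (ω : V × K → Bool) (c : ℕ × ℕ) (γ : ℕ → V),
  Mx G (Psi G ω) c γ → ∀ i : ℕ, 2 ≤ i →
    bt (Psi G ω (γ 0) (c, 0, i)) * bt (Psi G ω (γ (c.1 + 2)) (c, c.1 + 2, i)) =
      ∑ j ∈ Finset.Ioo 0 (c.1 + 2), bt (Psi G ω (γ j) (c, j, i))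

/-- COV: every walk is a chain of some copy -/
def S_COV : Prop := ∀ (V : Type) (G : SimpleGraph V), Countable V →
  (∀ v : V, (G.neighborSet v).ncard = 3) → ∀ (n : ℕ) (γ : ℕ → V),
  (∀ j < n + 2, G.Adj (γ j) (γ (j + 1))) → ∀ᵐ x ∂(muX G), ∃ c' : ℕ, Mx G x (n, c') γ

/-- BIT: the end bits are random -/
def S_BIT : Prop := ∀ (V : Type) (G : SimpleGraph V), Countable V → ∀ (v : V) (c : ℕ × ℕ) (j : ℕ),
  j ≠ 1 → ∀ I : Set ℕ, I.Infinite → ∀ b : ℕ → Bool,
  muX G {x | ∀ i ∈ I, x v (c, j, i + 2) = b i} = 0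

/-- HIT: a local rule fails somewhere on every long walk -/
def S_HIT : Prop := ∀ (V : Type) (G : SimpleGraph V), Countable V → G.IsTree →
  (∀ v : V, (G.neighborSet v).ncard = 3) →
  ∀ F : (V → unitInterval) → V → K → Bool, Measurable F → (PI V).map F = muX G →
  ∀ (m : ℕ) (γ : ℕ → V), NB G (4 * m + 2) γ →
    ∀ᵐ y ∂(PI V), ∃ j ≤ 4 * m + 2, y ∉ Loc G F m (γ j)

end

end Pool.Agent.W300.FT
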