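import Pool.Agent.W300.FT.Stm

set_option autoImplicit false

namespace Pool.Agent.W300.FT
open MeasureTheory ProbabilityTheory

theorem coin_prob : IsProbabilityMeasure coin := by
  constructor
  unfold coin
  simp only [Measure.coe_add, Measure.coe_smul, Pi.add_apply, Pi.smul_apply, measure_univ,
    smul_eq_mul, mul_one]
  exact ENNReal.add_halves 1

theorem ext_nb {V : Type} {G : SimpleGraph V} {n : ℕ} {γ γ' : ℕ → V} (h : NB G n γ)
    (he : ∀ j ≤ n, γ' j = γ j) : NB G n γ' := by
  constructor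
  · intro j hj
    rw [he j hj.le, he (j + 1) hj]
    exact h.1 j hj
  · intro j hj
    rw [he j (by omega), he (j + 2) hj]
    exact h.2 j hj

theorem fin_of (htree : S_TREE) (hdens : S_DENS) (h1 : S_LOC1) (h4 : S_LOC4) (h5 : S_LOC5)
    (hsh : S_SHIFT) (hm : S_MEAS) (hinv : S_INV) (hfd : S_FD) (hhit : S_HIT) :
    ¬ (∀ (V : Type) (G : SimpleGraph V) (d : ℕ), 3 ≤ d → G.IsTree →
    (∀ v : V, (G.neighborSet v).ncard = d) →
    ∀ (S : Type) [MeasurableSpace S] [StandardBorelSpace S] (μ : Measure (V → S)),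
      IsProbabilityMeasure μ →
      (∀ φ : G ≃g G, μ.map (fun x : V → S => fun v => x (φ v)) = μ) →
      (∃ k : ℕ, ∀ A B : Set V, (∀ a ∈ A, ∀ b ∈ B, k < G.dist a b) →
        Indep (MeasurableSpace.comap (fun x : V → S => fun a : A => x a) inferInstance)
          (MeasurableSpace.comap (fun x : V → S => fun b : B => x b) inferInstance) μ) →
      ∃ F : (V → unitInterval) → (V → S), Measurable F ∧
        (Measure.infinitePi (fun _ : V => (volume : Measure unitInterval))).map F = μ ∧
        (∀ φ : G ≃g G, ∀ᵐ y ∂(Measure.infinitePi (fun _ : V => (volume : Measure unitInterval))),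
          F (fun v => y (φ v)) = fun v => F y (φ v)) ∧
        (∀ᵐ y ∂(Measure.infinitePi (fun _ : V => (volume : Measure unitInterval))),
          ∀ v : V, ∃ r : ℕ, ∀ y' : V → unitInterval,
            (∀ u : V, G.dist v u ≤ r → y' u = y u) → F y' v = F y v)) := by
  intro H
  obtain ⟨V, G, hV, hT, h3, hsw⟩ := htree
  have hcoin := coin_prob
  have hPC : IsProbabilityMeasure (PC (V × K)) := by unfold PC; infer_instance
  have hPI : IsProbabilityMeasure (PI V) := by unfold PI; infer_instance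
  have hprob : IsProbabilityMeasure (muX G) := by
    unfold muX
    exact Measure.isProbabilityMeasure_map (hm V G ∅ hV).1.aemeasurable
  obtain ⟨F, hF, hmap, heq, hfin⟩ := H V G 3 le_rfl hT h3 (K → Bool) (muX G) hprob
    (fun φ => hinv V G hV φ) ⟨6, fun A B hAB => hfd V G A B hV hT.isConnected hAB⟩
  obtain ⟨v⟩ := hT.isConnected.nonempty
  obtain ⟨m, hmm⟩ := h4 V G F hV hF v (hfin.mono fun y hy => hy v) (1 / 6) (by norm_num)
  have hd := hdens V G hV h3 hsw (V → unitInterval) (PI V) hPI (fun φ y v => y (φ v))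
    (fun v => (Loc G F m v)ᶜ) (4 * m + 2) (fun φ => hsh V φ.toEquiv hV)
    (fun v => (h1 V G F hV hF m v).1.compl)
    (fun φ v => (h5 V G F hV hF φ (heq φ) m v).mono fun y hy => not_congr hy) ?_ v
  · exact absurd hmm (not_lt.mpr hd)
  · have key : ∀ᵐ y ∂(PI V), ∀ l : Fin (4 * m + 2 + 1) → V,
        NB G (4 * m + 2) (fun j => if h : j < 4 * m + 2 + 1 then l ⟨j, h⟩ else v) →
        ∃ j ≤ 4 * m + 2, y ∉ Loc G F m
          ((fun j => if h : j < 4 * m + 2 + 1 then l ⟨j, h⟩ else v) j) := by
      rw [ae_all_iff]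
      intro l
      by_cases hl : NB G (4 * m + 2) (fun j => if h : j < 4 * m + 2 + 1 then l ⟨j, h⟩ else v)
      · exact (hhit V G hV hT h3 F hF hmap m _ hl).mono fun y hy _ => hy
      · exact Filter.Eventually.of_forall fun y h => absurd h hl
    refine key.mono fun y hy γ hγ => ?_
    have he : ∀ j ≤ 4 * m + 2, (fun j => if h : j < 4 * m + 2 + 1 then
        (fun i : Fin (4 * m + 2 + 1) => γ i) ⟨j, h⟩ else v) j = γ j := by
      intro j hj
      simp only
      rw [dif_pos (by omega)]
    obtain ⟨j, hj, hy'⟩ := hy (fun i => γ i) (ext_nb hγ he)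
    refine ⟨j, hj, ?_⟩
    rw [he j hj] at hy'
    exact hy'

end Pool.Agent.W300.FT
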