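import Pool.Agent.W300.FT.Stm

set_option autoImplicit false

namespace Pool.Agent.W300.FT

theorem mt_right {V : Type} {G : SimpleGraph V} {ω : V × K → Bool} {c : ℕ × ℕ} {j : ℕ} {u v v' : V}
    (h : mt G ω c j u v) (h' : mt G ω c j u v') : v = v' :=
  h.2.2.2.1.unique ⟨h.1, h.2.2.1⟩ ⟨h'.1, h'.2.2.1⟩

theorem mt_left {V : Type} {G : SimpleGraph V} {ω : V × K → Bool} {c : ℕ × ℕ} {j : ℕ} {u u' v : V}
    (h : mt G ω c j u v) (h' : mt G ω c j u' v) : u = u' :=
  h.2.2.2.2.unique ⟨h.1.symm, h.2.1⟩ ⟨h'.1.symm, h'.2.1⟩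

/-- chains through the same vertex at the same position agree -/
theorem ch_unique {V : Type} {G : SimpleGraph V} {ω : V × K → Bool} {c : ℕ × ℕ} {γ γ' : ℕ → V}
    (h : Ch G ω c γ) (h' : Ch G ω c γ') {j₀ : ℕ} (hj₀ : j₀ ≤ c.1 + 2) (he : γ j₀ = γ' j₀) :
    ∀ j ≤ c.1 + 2, γ j = γ' j := by
  have up : ∀ k, j₀ + k ≤ c.1 + 2 → γ (j₀ + k) = γ' (j₀ + k) := by
    intro k
    induction k with
    | zero => intro _; exact he
    | succ k ih =>
      intro hk
      have h1 := h (j₀ + k) (by omega)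
      have h2 := h' (j₀ + k) (by omega)
      rw [ih (by omega)] at h1
      exact mt_right h1 h2
  have dn : ∀ k, k ≤ j₀ → γ (j₀ - k) = γ' (j₀ - k) := by
    intro k
    induction k with
    | zero => intro _; exact he
    | succ k ih =>
      intro hk
      have h1 := h (j₀ - (k + 1)) (by omega)
      have h2 := h' (j₀ - (k + 1)) (by omega)
      have e : j₀ - (k + 1) + 1 = j₀ - k := by omega
      rw [e] at h1 h2
      rw [ih (by omega)] at h1
      exact mt_left h1 h2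
  intro j hj
  rcases le_total j₀ j with hle | hle
  · have := up (j - j₀) (by omega)
    rwa [Nat.add_sub_cancel' hle] at this
  · have := dn (j₀ - j) (by omega)
    rwa [Nat.sub_sub_self hle] at this

theorem fm_congr {V : Type} {ω : V × K → Bool} {c : ℕ × ℕ} {i : ℕ} {γ γ' : ℕ → V}
    (h : ∀ j ≤ c.1 + 2, γ j = γ' j) : fm ω c i γ = fm ω c i γ' := by
  unfold fm
  rw [h 0 (by omega), h (c.1 + 2) le_rfl]
  congr 1
  apply Finset.sum_congr rfl
  intro j hj
  rw [Finset.mem_Ioo] at hj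
  rw [h j (by omega)]

theorem ch_congr {V : Type} {G : SimpleGraph V} {ω ω' : V × K → Bool} {c : ℕ × ℕ} {γ : ℕ → V}
    (h : ∀ v j, ω (v, (c, j, 0)) = ω' (v, (c, j, 0))) (hc : Ch G ω c γ) : Ch G ω' c γ := by
  intro j hj
  obtain ⟨h1, h2, h3, h4, h5⟩ := hc j hj
  refine ⟨h1, ?_, ?_, ?_, ?_⟩
  · rw [← h]; exact h2
  · rw [← h]; exact h3
  · unfold et at h4 ⊢
    simpa only [h] using h4
  · unfold et at h5 ⊢
    simpa only [h] using h5

end Pool.Agent.W300.FT
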